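import Mathlib
import Pool.Agent.Helper83.BishopsLower
import Pool.Agent.Helper83.BishopsUpper

set_option autoImplicit false

namespace Pool.Agent.Results.MP_8e2e71_co.BishopsDomination

/-- The bishops graph `B_{k,n}`: vertices are the squares of a board with `k` rows and `n` columns,
two distinct squares are adjacent iff they lie on a common diagonal (in either direction). -/
def bishopsGraph (k n : ℕ) : SimpleGraph (Fin k × Fin n) where
  Adj p q := p ≠ q ∧ |((p.1 : ℕ) : ℤ) - ((q.1 : ℕ) : ℤ)| = |((p.2 : ℕ) : ℤ) - ((q.2 : ℕ) : ℤ)|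
  symm := ⟨by
    intro p q h
    refine ⟨h.1.symm, ?_⟩
    rw [abs_sub_comm, h.2, abs_sub_comm]⟩
  loopless := ⟨fun p h => h.1 rfl⟩

/-- `D` is a dominating set of `G`: every vertex outside `D` is adjacent to a vertex of `D`. -/
def IsDominatingSet {V : Type*} (G : SimpleGraph V) (D : Finset V) : Prop :=
  ∀ v, v ∉ D → ∃ u ∈ D, G.Adj v u

/-- The domination number: the least size of a dominating set. -/
noncomputable def dominationNumber {V : Type*} (G : SimpleGraph V) : ℕ :=
  sInf {m : ℕ | ∃ D : Finset V, IsDominatingSet G D ∧ D.card = m}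

open Pool.Agent.Helper83.Bishops

theorem lower (K n : ℕ) (hK : 1 ≤ K) (hn : 2 * (K + 1) < n) (D : Finset (Fin (K + 1) × Fin n))
    (hD : IsDominatingSet (bishopsGraph (K + 1) n) D) : 2 * ((K + 1 + n) / 3) ≤ D.card := by
  have hcol : ∀ e, e < 2 → (K + 1 + n) / 3 ≤
      (D.filter (fun x => ((x.1 : ℕ) + x.2) % 2 = e)).card := by
    intro e he
    apply color_bound K n e hK hn he
    · intro x hx
      simp only [Finset.mem_filter] at hx
      simp only [col, Finset.mem_filter, Finset.mem_univ, true_and]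
      exact hx.2
    · intro z hz
      simp only [col, Finset.mem_filter, Finset.mem_univ, true_and] at hz
      by_cases hzD : z ∈ D
      · exact ⟨z, by simp [hzD, hz], Or.inl rfl⟩
      · obtain ⟨u, hu, hzu⟩ := hD z hzD
        have habs := hzu.2
        have hu1 := u.1.isLt
        have hz1 := z.1.isLt
        have hu2 := u.2.isLt
        have hz2 := z.2.isLt
        refine ⟨u, ?_, ?_⟩
        · simp only [Finset.mem_filter]
          refine ⟨hu, ?_⟩
          rcases abs_eq_abs.mp habs with h | h <;> omega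
        · unfold sIdx dIdx
          rcases abs_eq_abs.mp habs with h | h
          · right; congr 1; omega
          · left; congr 1; omega
  have h0 := hcol 0 (by norm_num)
  have h1 := hcol 1 (by norm_num)
  have hsplit : (D.filter (fun x => ((x.1 : ℕ) + x.2) % 2 = 0)).card +
      (D.filter (fun x => ((x.1 : ℕ) + x.2) % 2 = 1)).card = D.card := by
    rw [← Finset.card_union_of_disjoint]
    · congr 1
      ext x
      simp only [Finset.mem_union, Finset.mem_filter]
      constructor
      · rintro (h | h) <;> exact h.1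
      · intro hx
        rcases Nat.mod_two_eq_zero_or_one ((x.1 : ℕ) + x.2) with h | h
        · left; exact ⟨hx, h⟩
        · right; exact ⟨hx, h⟩
    · rw [Finset.disjoint_left]
      intro x hx hx'
      simp only [Finset.mem_filter] at hx hx'
      omega
  omega

theorem upper_color (K n e : ℕ) (hK : 1 ≤ K) (hn : 2 * (K + 1) < n) :
    ∃ D : Finset (Fin (K + 1) × Fin n), D.card ≤ (K + 1 + n) / 3 ∧
      ∀ v : Fin (K + 1) × Fin n, ((v.1 : ℕ) + v.2) % 2 = e → v ∉ D →
        ∃ u ∈ D, (bishopsGraph (K + 1) n).Adj v u := by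
  classical
  obtain ⟨δ, o, hδ, ho1, ho2⟩ : ∃ δ o : ℕ, (K + 1 + n + δ) = 3 * ((K + 1 + n) / 3) + 2 ∧ o ≤ 1 ∧
      (o ≤ δ ∧ δ ≤ o + 1) := by
    rcases (by omega : (K + 1 + n) % 3 = 0 ∨ (K + 1 + n) % 3 = 1 ∨ (K + 1 + n) % 3 = 2) with h | h | h
    · exact ⟨2, 1, by omega, by omega, by omega, by omega⟩
    · exact ⟨1, 0, by omega, by omega, by omega, by omega⟩
    · exact ⟨0, 0, by omega, by omega, by omega, by omega⟩
  obtain ⟨m, hm⟩ : ∃ m, m = (K + 1 + n) / 3 := ⟨_, rfl⟩
  obtain ⟨f, hf⟩ : ∃ f, f = (e + o) % 2 := ⟨_, rfl⟩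
  obtain ⟨x, hx⟩ : ∃ x, x = (f + K + 1) % 2 := ⟨_, rfl⟩
  have hmK : K + 1 ≤ m := by omega
  obtain ⟨w, hw⟩ : ∃ w, w = (m - x) / K := ⟨_, rfl⟩
  obtain ⟨x', hx'⟩ : ∃ x', x' = (m - x) % K := ⟨_, rfl⟩
  have hdm : K * w + x' = m - x := by rw [hw, hx']; exact Nat.div_add_mod _ _
  have hx'K : x' < K := by rw [hx']; exact Nat.mod_lt _ (by omega)
  have hw1 : 1 ≤ w := by
    rw [hw, Nat.one_le_div_iff (by omega)]
    omega
  obtain ⟨w1, rfl⟩ : ∃ w1, w = w1 + 1 := ⟨w - 1, by omega⟩
  have hKw : K * (w1 + 1) = K * w1 + K := by ring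
  have hn' : n + δ = 3 * x + 1 + 3 * (K * w1) + 2 * K + 3 * x' := by omega
  have hbd := pat_bounds K x x' w1 (n + δ) hK (by omega) hx'K hn'
  refine ⟨Finset.univ.filter (fun p : Fin (K + 1) × Fin n =>
    ((p.1 : ℕ), (p.2 : ℕ) + o) ∈ pat K (3 * x + 1) x x' w1), ?_, ?_⟩
  · have h1 := pat_card K (3 * x + 1) x x' w1
    refine le_trans (Finset.card_le_card_of_injOn (fun p : Fin (K + 1) × Fin n =>
      ((p.1 : ℕ), (p.2 : ℕ) + o)) ?_ ?_) (h1.trans ?_)
    · intro p hp
      simp only [Finset.coe_filter, Finset.mem_univ, true_and, Set.mem_ofPred_eq] at hp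
      exact hp
    · intro p _ q _ hpq
      simp only [Prod.mk.injEq] at hpq
      ext
      · exact hpq.1
      · have := hpq.2
        omega
    · have : (w1 + 1) * K = K * w1 + K := by ring
      omega
  · intro v hv hvD
    have hv1 := v.1.isLt
    have hv2 := v.2.isLt
    obtain ⟨p, hp, hatt⟩ := pat_dom K x x' w1 (n + δ) f v.1 (v.2 + o) hK (by omega) hx'K hn'
      (by omega) (by omega) (by omega) (by omega)
    have hpb := hbd p hp
    obtain ⟨a, b⟩ := p
    simp only at hpb
    have ha : a < K + 1 := by omega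
    have hb : b - o < n := by omega
    have hbo : b - o + o = b := by omega
    refine ⟨(⟨a, ha⟩, ⟨b - o, hb⟩), ?_, ?_⟩
    · simp only [Finset.mem_filter, Finset.mem_univ, true_and, hbo]
      exact hp
    · refine ⟨?_, ?_⟩
      · intro hveq
        apply hvD
        simp only [Finset.mem_filter, Finset.mem_univ, true_and]
        rw [hveq]
        simp only [hbo]
        exact hp
      · simp only
        unfold Att at hatt
        simp only at hatt
        rw [abs_eq_abs]
        rcases hatt with h | h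
        · right; omega
        · left; omega

/-- The Fisher–Thalos conjecture: for `2 < 2k < n` the domination number of the `k × n` bishops
graph is `2 ⌊(k+n)/3⌋`. -/
theorem result (k n : ℕ) (h1 : 2 < 2 * k) (h2 : 2 * k < n) :
    dominationNumber (bishopsGraph k n) = 2 * ((k + n) / 3) := by
  classical
  obtain ⟨K, rfl⟩ : ∃ K, k = K + 1 := ⟨k - 1, by omega⟩
  have hK : 1 ≤ K := by omega
  obtain ⟨D0, hD0, hD0'⟩ := upper_color K n 0 hK h2
  obtain ⟨D1, hD1, hD1'⟩ := upper_color K n 1 hK h2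
  have hdom : IsDominatingSet (bishopsGraph (K + 1) n) (D0 ∪ D1) := by
    intro v hv
    simp only [Finset.mem_union, not_or] at hv
    rcases Nat.mod_two_eq_zero_or_one ((v.1 : ℕ) + v.2) with h | h
    · obtain ⟨u, hu, hadj⟩ := hD0' v h hv.1
      exact ⟨u, Finset.mem_union_left _ hu, hadj⟩
    · obtain ⟨u, hu, hadj⟩ := hD1' v h hv.2
      exact ⟨u, Finset.mem_union_right _ hu, hadj⟩
  have hcard : (D0 ∪ D1).card ≤ 2 * ((K + 1 + n) / 3) := by
    have := Finset.card_union_le D0 D1
    omega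
  unfold dominationNumber
  apply le_antisymm
  · exact le_trans (Nat.sInf_le ⟨D0 ∪ D1, hdom, rfl⟩) hcard
  · apply le_csInf
    · exact ⟨_, D0 ∪ D1, hdom, rfl⟩
    · rintro m ⟨D, hD, rfl⟩
      exact lower K n hK h2 D hD

end Pool.Agent.Results.MP_8e2e71_co.BishopsDomination
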